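import Pool.Agent.Y843.HS.Top
import Pool.Agent.Erdos456.Mertens

/-!
# Narrow progressions in sets of almost prime quadruplets
-/

set_option autoImplicit false

open Finset

namespace Pool.Agent.K6.H38.PQ

open Pool.Agent.Y843.HS (VV Pr)

/-- the residues `c` modulo `p` with `p ∣ c (c + 2) (c + 6) (c + 8)` -/
def Zq (p : ℕ) : Finset ℕ := ({0, 2, 6, 8} : Finset ℕ).image (fun h => (p - h % p) % p)

theorem Zq_card_le (p : ℕ) : (Zq p).card ≤ 4 := by
  unfold Zq
  refine card_image_le.trans ?_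
  decide

theorem Zq_lt {p : ℕ} (hp : 0 < p) {c : ℕ} (hc : c ∈ Zq p) : c < p := by
  unfold Zq at hc
  rw [mem_image] at hc
  obtain ⟨h, _, rfl⟩ := hc
  exact Nat.mod_lt _ hp

theorem Zq_two : (Zq 2).card = 1 := by decide

theorem Zq_three : (Zq 3).card = 2 := by decide

theorem Zq_card {p : ℕ} (hp : p.Prime) (h5 : 5 ≤ p) : (Zq p).card = 4 := by
  have h2 : ¬ p ∣ 2 := fun h => by have := Nat.le_of_dvd (by norm_num) h; omega
  have h3 : ¬ p ∣ 3 := fun h => by have := Nat.le_of_dvd (by norm_num) h; omega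
  have h4 : ¬ p ∣ 4 := fun h => by have := Nat.le_of_dvd (by norm_num) h; omega
  have h6 : ¬ p ∣ 6 := fun h => by
    rcases (Nat.Prime.dvd_mul hp).1 (show p ∣ 2 * 3 from h) with h | h
    · exact h2 h
    · exact h3 h
  have h8 : ¬ p ∣ 8 := fun h => by
    rcases (Nat.Prime.dvd_mul hp).1 (show p ∣ 2 * 4 from h) with h | h
    · exact h2 h
    · exact h4 h
  unfold Zq
  rw [card_image_of_injOn]
  · decide
  · have key : ∀ a b : ℕ, (p - a % p) % p = (p - b % p) % p → a ≤ b → p ∣ b - a := by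
      intro a b hab hle
      have ha := Nat.mod_lt a hp.pos
      have hb := Nat.mod_lt b hp.pos
      have h1 : ∀ x : ℕ, x < p → (p - x) % p = if x = 0 then 0 else p - x := by
        intro x hx
        split_ifs with h
        · rw [h, Nat.sub_zero, Nat.mod_self]
        · exact Nat.mod_eq_of_lt (by omega)
      rw [h1 _ ha, h1 _ hb] at hab
      have h7 : a % p = b % p := by
        split_ifs at hab with h8 h9 h9 <;> omega
      exact (Nat.modEq_iff_dvd' hle).1 h7
    intro a ha b hb hab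
    simp only [coe_insert, coe_singleton, Set.mem_insert_iff, Set.mem_singleton_iff] at ha hb
    simp only at hab
    rcases ha with rfl | rfl | rfl | rfl <;> rcases hb with rfl | rfl | rfl | rfl <;>
      first
      | rfl
      | (exfalso
         first
         | (have := key _ _ hab (by norm_num); norm_num at this; first | exact h2 this | exact h4 this | exact h6 this | exact h8 this)
         | (have := key _ _ hab.symm (by norm_num); norm_num at this; first | exact h2 this | exact h4 this | exact h6 this | exact h8 this))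

theorem Zq_card_lt {p : ℕ} (hp : p.Prime) : (Zq p).card < p := by
  have h2 := hp.two_le
  rcases Nat.lt_or_ge p 5 with h | h
  · interval_cases p
    · rw [Zq_two]; norm_num
    · rw [Zq_three]; norm_num
    · norm_num at hp
  · rw [Zq_card hp h]; omega

theorem mem_Zq {p n : ℕ} (hp : 0 < p) (h : n % p ∈ Zq p) : ∃ a ∈ ({0, 2, 6, 8} : Finset ℕ), p ∣ n + a := by
  unfold Zq at h
  rw [mem_image] at h
  obtain ⟨a, ha, hn⟩ := h
  refine ⟨a, ha, ?_⟩
  have hap := Nat.mod_lt a hp
  have h1 : (p - a % p) % p = if a % p = 0 then 0 else p - a % p := by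
    split_ifs with h
    · rw [h, Nat.sub_zero, Nat.mod_self]
    · exact Nat.mod_eq_of_lt (by omega)
  rw [h1] at hn
  rw [Nat.dvd_iff_mod_eq_zero, Nat.add_mod, ← hn]
  split_ifs with h
  · rw [h]; simp
  · rw [Nat.sub_add_cancel hap.le, Nat.mod_self]

/-- the product over the sieving primes -/
theorem VV_le : ∃ K : ℝ, 0 < K ∧ ∀ z : ℕ, 3 ≤ z → VV Zq 0 z ≤ K / Real.log z ^ 4 := by
  obtain ⟨C, hC⟩ := Pool.Agent.Erdos456.Mert.mertens_inv
  refine ⟨Real.exp (4 * C + 4), Real.exp_pos _, fun z hz => ?_⟩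
  have h1 := hC z hz
  have hz3 : (3 : ℝ) ≤ z := by exact_mod_cast hz
  have hlz : 0 < Real.log z := Real.log_pos (by linarith)
  have hset : Pr 0 z = (Icc 1 z).filter Nat.Prime := by
    unfold Pr
    congr 1
  unfold VV
  rw [hset]
  have hterm : ∀ p ∈ (Icc 1 z).filter Nat.Prime,
      -(((Zq p).card : ℝ) / p) ≤ -(4 / (p : ℝ)) + (if p = 2 then 3 / 2 else if p = 3 then 2 / 3 else 0) := by
    intro p hp
    have hpp := (mem_filter.1 hp).2
    rcases Nat.lt_or_ge p 5 with h | h
    · have h2 := hpp.two_le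
      interval_cases p
      · rw [Zq_two]; norm_num
      · rw [Zq_three]; norm_num
      · norm_num at hpp
    · rw [Zq_card hpp h, if_neg (by omega), if_neg (by omega)]; norm_num
  have hsum : ∑ p ∈ (Icc 1 z).filter Nat.Prime, -(((Zq p).card : ℝ) / p) ≤
      -4 * ∑ p ∈ (Icc 1 z).filter Nat.Prime, 1 / (p : ℝ) + 4 := by
    refine (sum_le_sum hterm).trans ?_
    rw [sum_add_distrib, mul_sum]
    have e1 : ∑ p ∈ (Icc 1 z).filter Nat.Prime, -(4 / (p : ℝ)) =
        ∑ p ∈ (Icc 1 z).filter Nat.Prime, -4 * (1 / (p : ℝ)) := sum_congr rfl (fun p _ => by ring)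
    rw [e1]
    apply add_le_add le_rfl
    have e2 : ∑ p ∈ (Icc 1 z).filter Nat.Prime, (if p = 2 then (3 : ℝ) / 2 else if p = 3 then 2 / 3 else 0) ≤
        ∑ p ∈ ({2, 3} : Finset ℕ), (if p = 2 then (3 : ℝ) / 2 else if p = 3 then 2 / 3 else 0) := by
      rw [← sum_filter_add_sum_filter_not ((Icc 1 z).filter Nat.Prime) (fun p => p = 2 ∨ p = 3)]
      have e3 : ∑ p ∈ ((Icc 1 z).filter Nat.Prime).filter (fun p => ¬ (p = 2 ∨ p = 3)),
          (if p = 2 then (3 : ℝ) / 2 else if p = 3 then 2 / 3 else 0) = 0 := by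
        apply sum_eq_zero
        intro p hp
        rw [mem_filter] at hp
        have := hp.2
        rw [if_neg (fun h => this (Or.inl h)), if_neg (fun h => this (Or.inr h))]
      rw [e3, add_zero]
      apply sum_le_sum_of_subset_of_nonneg
      · intro p hp
        rw [mem_filter] at hp
        rw [mem_insert, mem_singleton]
        exact hp.2
      · intro p _ _
        split_ifs <;> norm_num
    refine e2.trans ?_
    rw [sum_insert (by decide), sum_singleton]
    norm_num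
  calc ∏ p ∈ (Icc 1 z).filter Nat.Prime, (1 - ((Zq p).card : ℝ) / p) ≤
      ∏ p ∈ (Icc 1 z).filter Nat.Prime, Real.exp (-(((Zq p).card : ℝ) / p)) := by
        apply Finset.prod_le_prod
        · intro p hp
          have hpp := (mem_filter.1 hp).2
          have h2 : ((Zq p).card : ℝ) ≤ p := by exact_mod_cast (Zq_card_lt hpp).le
          have h3 : (0 : ℝ) < p := by exact_mod_cast hpp.pos
          rw [sub_nonneg, div_le_one h3]
          exact h2
        · intro p hp
          have := Real.add_one_le_exp (-(((Zq p).card : ℝ) / p))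
          linarith
    _ = Real.exp (∑ p ∈ (Icc 1 z).filter Nat.Prime, -(((Zq p).card : ℝ) / p)) := by
        rw [← Real.exp_sum]
    _ ≤ Real.exp ((4 * C + 4) - 4 * Real.log (Real.log z)) := by
        apply Real.exp_le_exp.2
        have h4 := (abs_le.1 h1).1
        linarith
    _ = Real.exp (4 * C + 4) / Real.log z ^ 4 := by
        have e : 4 * Real.log (Real.log z) = Real.log (Real.log z ^ 4) := by
          rw [Real.log_pow]; push_cast; ring
        rw [Real.exp_sub, e, Real.exp_log (by positivity)]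

/-- `m`, `m + 2`, `m + 6`, `m + 8` have no prime factor `≤ z` -/
def NoSmall (z : ℝ) (m : ℕ) : Prop :=
  ∀ q : ℕ, q.Prime → (q : ℝ) ≤ z → ∀ h ∈ ({0, 2, 6, 8} : Finset ℕ), ¬ q ∣ m + h

/-- `n` is a term of a progression of `k` terms in `T` with a difference `1 ≤ d ≤ D` -/
def InAP (T : Finset ℕ) (k : ℕ) (D : ℝ) (n : ℕ) : Prop :=
  ∃ a d : ℕ, 1 ≤ d ∧ (d : ℝ) ≤ D ∧ (∀ i < k, a + i * d ∈ T) ∧ ∃ i < k, n = a + i * d

open Classical in
/-- the elements of `T` which are not in such a progression -/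
noncomputable def Out (T : Finset ℕ) (k : ℕ) (D : ℝ) : Finset ℕ := T.filter (fun n => ¬ InAP T k D n)

open Classical in
theorem main (k : ℕ) (hk : 1 ≤ k) (κ ε : ℝ) (hκ : 0 < κ) (hκ1 : κ ≤ 1) (hε : 0 < ε) : ∃ B X₀ : ℕ, ∀ X : ℕ, X₀ ≤ X →
    ∀ (A : ℕ) (T : Finset ℕ), T ⊆ Ioc A (A + X) → (∀ m ∈ T, NoSmall ((X : ℝ) ^ κ) m) →
      ((Out T k (Real.log X ^ B)).card : ℝ) ≤ ε * X / Real.log X ^ 4 := by
  obtain ⟨K, hK, hV⟩ := VV_le
  obtain ⟨B, X₀, hfin⟩ := Pool.Agent.Y843.HS.fin k 4 κ (ε * (κ / 2) ^ 4 / K) hκ (by positivity)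
  have hX1 : ∀ᶠ X : ℕ in Filter.atTop, 4 ≤ (X : ℝ) ^ κ :=
    ((tendsto_rpow_atTop hκ).comp tendsto_natCast_atTop_atTop).eventually_ge_atTop 4
  obtain ⟨X₁, hX₁⟩ := Filter.eventually_atTop.1 hX1
  refine ⟨B, max X₀ (max X₁ 3), fun X hX A T hT hS => ?_⟩
  have hX0 : X₀ ≤ X := (le_max_left _ _).trans hX
  have hX2 : X₁ ≤ X := ((le_max_left _ _).trans (le_max_right _ _)).trans hX
  have hX3 : 3 ≤ X := ((le_max_right _ _).trans (le_max_right _ _)).trans hX
  have hXr : (3 : ℝ) ≤ X := by exact_mod_cast hX3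
  have hlX : 0 < Real.log X := Real.log_pos (by linarith)
  by_contra hcon
  push Not at hcon
  have h4 := hX₁ X hX2
  set z : ℕ := ⌊(X : ℝ) ^ κ⌋₊ with hz
  have hz3 : 4 ≤ z := by rw [hz]; exact Nat.le_floor (by push_cast; exact h4)
  have hVz := hV z (by omega)
  have hlz : κ / 2 * Real.log X ≤ Real.log z := by
    have h1 : (X : ℝ) ^ κ < z + 1 := Nat.lt_floor_add_one _
    have h2 : (X : ℝ) ^ (κ / 2) ≤ z := by
      have h3 : (X : ℝ) ^ κ = (X : ℝ) ^ (κ / 2) * (X : ℝ) ^ (κ / 2) := by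
        rw [← Real.rpow_add (by linarith)]; congr 1; ring
      have h5 : (2 : ℝ) ≤ (X : ℝ) ^ (κ / 2) := by
        have h6 : (0 : ℝ) ≤ (X : ℝ) ^ (κ / 2) := by positivity
        nlinarith
      nlinarith
    rw [← Real.log_rpow (by linarith)]
    exact Real.log_le_log (by positivity) h2
  have hlz0 : 0 < Real.log z := lt_of_lt_of_le (by positivity) hlz
  obtain ⟨a, d, hd1, hd2, hd3⟩ := hfin X A hX0 Zq (fun p hp _ => ⟨Zq_card_le p, Zq_card_lt hp, fun c hc => Zq_lt hp.pos hc⟩)
    (Out T k (Real.log X ^ B)) ((filter_subset _ _).trans hT) (by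
      intro n hn p hp hpz hmem
      obtain ⟨a, ha, hd⟩ := mem_Zq hp.pos hmem
      exact hS n (mem_filter.1 hn).1 p hp hpz a ha hd) (by
      refine le_trans ?_ hcon.le
      have h5 : VV Zq 0 z ≤ K / (κ / 2 * Real.log X) ^ 4 := by
        refine hVz.trans ?_
        apply div_le_div_of_nonneg_left hK.le (by positivity)
        exact pow_le_pow_left₀ (by positivity) hlz 4
      calc ε * (κ / 2) ^ 4 / K * X * VV Zq 0 z ≤ ε * (κ / 2) ^ 4 / K * X * (K / (κ / 2 * Real.log X) ^ 4) :=
            mul_le_mul_of_nonneg_left h5 (by positivity)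
        _ = ε * X / Real.log X ^ 4 := by
            rw [mul_pow]; field_simp)
  have h6 : a + 0 * d ∈ Out T k (Real.log X ^ B) := hd3 0 (by omega)
  have h7 := (mem_filter.1 h6).2
  apply h7
  exact ⟨a, d, hd1, hd2, fun i hi => (mem_filter.1 (hd3 i hi)).1, 0, by omega, rfl⟩

end Pool.Agent.K6.H38.PQ
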